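import Pool.Agent.Q104.Mag

/-!
# MP_3489b6_co: the magneto-spectral height of graphs of minimum degree at least three

For every finite graph with minimum degree at least `d ≥ 3` the magneto-spectral height is at
least `d - 2 √(d - 1)`.
-/

set_option autoImplicit false

namespace Pool.Agent.Results.MP_3489b6_co.MinDegree

open Pool.Agent.Q104.Mag

/-- `ν(G) ≥ d - 2 √(d - 1)` for every finite graph of minimum degree at least `d ≥ 3`. -/
theorem nu_ge_minDegree (d : ℕ) (hd : 3 ≤ d) (V : Type) [Fintype V] [DecidableEq V] [Nonempty V]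
    (G : SimpleGraph V) [DecidableRel G.Adj] (hG : ∀ v, d ≤ G.degree v) :
    (d : ℝ) - 2 * Real.sqrt (d - 1) ≤ nu G := by
  set s : ℝ := Real.sqrt (d - 1) with hs
  have hd' : (3 : ℝ) ≤ d := by exact_mod_cast hd
  have hs2 : s ^ 2 = d - 1 := Real.sq_sqrt (by linarith)
  have hs1 : 1 ≤ s := by
    rw [hs]
    apply Real.one_le_sqrt.2
    linarith
  have hs0 : 0 < s := by linarith
  have hinv : 1 / s ≤ 1 := by
    rw [div_le_one hs0]; exact hs1
  have hss : (d - 1 : ℝ) / s = s := by
    rw [← hs2]; field_simp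
  have hds : (d : ℝ) / s = s + 1 / s := by
    rw [show (d : ℝ) = (d - 1) + 1 by ring, add_div, hss]
  apply nu_ge_of_ratios G _ (fun _ _ => s) (fun _ _ _ => hs0)
  · intro v u hvu
    rw [Finset.sum_const, nsmul_eq_mul, Finset.card_erase_of_mem
      ((SimpleGraph.mem_neighborFinset _ _ _).2 hvu), SimpleGraph.card_neighborFinset_eq_degree]
    have hD : (d : ℝ) ≤ G.degree v := by exact_mod_cast hG v
    have h1 : 1 ≤ G.degree v := le_trans (by omega) (hG v)
    push_cast [Nat.cast_sub h1]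
    have e : ((G.degree v : ℝ) - 1) * (1 / s) = (G.degree v - d) * (1 / s) + s := by
      have : ((d : ℝ) - 1) * (1 / s) = s := by rw [mul_one_div]; exact hss
      linear_combination this
    rw [e]
    nlinarith [mul_nonneg (sub_nonneg.2 hD) (sub_nonneg.2 hinv)]
  · intro v
    rw [Finset.sum_const, nsmul_eq_mul, SimpleGraph.card_neighborFinset_eq_degree]
    have hD : (d : ℝ) ≤ G.degree v := by exact_mod_cast hG v
    have e : (G.degree v : ℝ) * (1 / s) = (G.degree v - d) * (1 / s) + (s + 1 / s) := by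
      have : (d : ℝ) * (1 / s) = s + 1 / s := by rw [mul_one_div]; exact hds
      linear_combination this
    rw [e]
    nlinarith [mul_nonneg (sub_nonneg.2 hD) (sub_nonneg.2 hinv)]

/-- `ν_d`, the infimum of the heights of the finite graphs of minimum degree at least `d`
(up to isomorphism such a graph has vertex set `Fin (n + 1)`). -/
noncomputable def nuInf (d : ℕ) : ℝ :=
  sInf {t | ∃ (n : ℕ) (G : SimpleGraph (Fin (n + 1))) (_ : DecidableRel G.Adj),
    (∀ v, d ≤ G.degree v) ∧ t = nu G}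

lemma nuInf_ge (d : ℕ) (hd : 3 ≤ d) : (d : ℝ) - 2 * Real.sqrt (d - 1) ≤ nuInf d := by
  apply le_csInf
  · refine ⟨nu (⊤ : SimpleGraph (Fin (d + 1))), d, ⊤, inferInstance, ?_, rfl⟩
    intro v
    rw [SimpleGraph.complete_graph_degree]
    simp
  · rintro t ⟨n, G, hdec, hG, rfl⟩
    exact nu_ge_minDegree d hd _ G hG

lemma three_pos : (0 : ℝ) < 3 - 2 * Real.sqrt (3 - 1) := by
  have h : Real.sqrt ((3 : ℝ) - 1) < 3 / 2 := by
    rw [Real.sqrt_lt' (by norm_num)]
    norm_num
  generalize Real.sqrt ((3 : ℝ) - 1) = t at h ⊢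
  linarith

/-- (1) There is a constant `c > 0` with `ν(G) ≥ c` for every finite graph with minimum degree at
least three; (2) `ν_3 > 0`; (3) for every `d ≥ 3`, every finite graph of minimum degree at least
`d` has height at least `d - 2 √(d - 1)`, and so `ν_d ≥ d - 2 √(d - 1)`. -/
theorem result :
    (∃ c : ℝ, 0 < c ∧ ∀ (V : Type) [Fintype V] [DecidableEq V] [Nonempty V] (G : SimpleGraph V)
      [DecidableRel G.Adj], (∀ v, 3 ≤ G.degree v) → c ≤ nu G) ∧
    0 < nuInf 3 ∧
    (∀ d : ℕ, 3 ≤ d → (∀ (V : Type) [Fintype V] [DecidableEq V] [Nonempty V] (G : SimpleGraph V)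
      [DecidableRel G.Adj], (∀ v, d ≤ G.degree v) → (d : ℝ) - 2 * Real.sqrt (d - 1) ≤ nu G) ∧
      (d : ℝ) - 2 * Real.sqrt (d - 1) ≤ nuInf d) := by
  refine ⟨⟨3 - 2 * Real.sqrt (3 - 1), three_pos, ?_⟩, ?_, ?_⟩
  · intro V _ _ _ G _ hG
    have := nu_ge_minDegree 3 le_rfl V G hG
    exact_mod_cast this
  · have h := nuInf_ge 3 le_rfl
    have h2 := three_pos
    push_cast at h
    linarith
  · intro d hd
    exact ⟨fun V _ _ _ G _ hG => nu_ge_minDegree d hd V G hG, nuInf_ge d hd⟩

end Pool.Agent.Results.MP_3489b6_co.MinDegree
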